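import Pool.Graph.R_pool_sql_team_seeded_b677cdb8.E8helper28.LN.Rel

/-! From `Λ` to primes for three shifts. -/

set_option autoImplicit false
set_option maxHeartbeats 4000000

open Finset

namespace Pool.Agent.Helper12.PV

open Pool.Agent.H373R2.T7 Pool.Agent.H560R3.GB Pool.Agent.E8helper28.LN

open Classical in
/-- the number of the `h ≤ N` in `S` for which `h + u`, `h + v`, `h + w` are primes -/
noncomputable def p3 (S : Set ℕ) (u v w N : ℕ) : ℕ :=
  ((Icc 1 N).filter (fun h => h ∈ S ∧ (h + u).Prime ∧ (h + v).Prime ∧ (h + w).Prime)).card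

open Classical in
/-- the number of the `h ≤ N` in `S` for which `h + u`, `h + v`, `h + w` have no prime factor `≤ z` -/
noncomputable def r3 (z : ℕ) (S : Set ℕ) (u v w N : ℕ) : ℕ :=
  ((Icc 1 N).filter (fun h => h ∈ S ∧ ∀ p : ℕ, p.Prime → p ≤ z → ¬ p ∣ h + u ∧ ¬ p ∣ h + v ∧ ¬ p ∣ h + w)).card

open Classical in
lemma model3 (z : ℕ) (S : Set ℕ) (u v w N : ℕ) :
    ∑ h ∈ Icc 1 N, (if h ∈ S then (1 : ℝ) else 0) * (lamz z (h + u) * lamz z (h + v) * lamz z (h + w)) =
      r3 z S u v w N / (Vz z) ^ 3 := by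
  unfold r3
  rw [card_filter]
  push_cast
  rw [sum_div]
  refine sum_congr rfl fun h _ => ?_
  unfold lamz
  by_cases hM : h ∈ S
  · rw [if_pos hM, one_mul]
    by_cases h1 : ∀ p ∈ pz z, ¬ p ∣ h + u
    · by_cases h2 : ∀ p ∈ pz z, ¬ p ∣ h + v
      · by_cases h3 : ∀ p ∈ pz z, ¬ p ∣ h + w
        · rw [if_pos h1, if_pos h2, if_pos h3, if_pos ⟨hM, fun p hp hpz => ⟨h1 p (mem_pz.2 ⟨hpz, hp⟩),
            h2 p (mem_pz.2 ⟨hpz, hp⟩), h3 p (mem_pz.2 ⟨hpz, hp⟩)⟩⟩]
          field_simp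
        · rw [if_neg h3, mul_zero, if_neg, zero_div]
          rintro ⟨-, h4⟩
          apply h3
          intro p hp
          rw [mem_pz] at hp
          exact (h4 p hp.2 hp.1).2.2
      · rw [if_neg h2, mul_zero, zero_mul, if_neg, zero_div]
        rintro ⟨-, h3⟩
        apply h2
        intro p hp
        rw [mem_pz] at hp
        exact (h3 p hp.2 hp.1).2.1
    · rw [if_neg h1, zero_mul, zero_mul, if_neg, zero_div]
      rintro ⟨-, h3⟩
      apply h1
      intro p hp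
      rw [mem_pz] at hp
      exact (h3 p hp.2 hp.1).1
  · rw [if_neg hM, zero_mul, if_neg (fun h => hM h.1), zero_div]

open Classical in
lemma upper3 (S : Set ℕ) (u v w N : ℕ) (T l : ℝ) (hT : 1 ≤ T) (hl : 0 ≤ l) (hlT : l ≤ Real.log T) :
    l ^ 3 * p3 S u v w N ≤
      ∑ h ∈ Icc 1 N, (if h ∈ S then (1 : ℝ) else 0) * (La (h + u) * La (h + v) * La (h + w)) + l ^ 3 * T := by
  unfold p3
  rw [card_filter]
  push_cast
  have hT2 : ∑ n ∈ Icc 1 N, (if (n : ℝ) ≤ T then (1 : ℝ) else 0) ≤ T := by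
    rw [← sum_filter, sum_const, nsmul_eq_mul, mul_one]
    have h3 : ((Icc 1 N).filter (fun p : ℕ => (p : ℝ) ≤ T)).card ≤ ⌊T⌋₊ := by
      calc _ ≤ (Icc 1 ⌊T⌋₊).card := by
            apply card_le_card
            intro p hp
            rw [mem_filter, mem_Icc] at hp
            rw [mem_Icc]
            exact ⟨hp.1.1, Nat.le_floor hp.2⟩
        _ = _ := by simp
    have h4 : (((Icc 1 N).filter (fun p : ℕ => (p : ℝ) ≤ T)).card : ℝ) ≤ ⌊T⌋₊ := by exact_mod_cast h3
    exact h4.trans (Nat.floor_le (by linarith))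
  have hpt : ∀ h ∈ Icc 1 N, l ^ 3 * (if h ∈ S ∧ (h + u).Prime ∧ (h + v).Prime ∧ (h + w).Prime then (1 : ℝ) else 0) ≤
      (if h ∈ S then (1 : ℝ) else 0) * (La (h + u) * La (h + v) * La (h + w)) + l ^ 3 * (if (h : ℝ) ≤ T then (1 : ℝ) else 0) := by
    intro h hn
    rw [mem_Icc] at hn
    have hn1 : (1 : ℝ) ≤ h := by exact_mod_cast hn.1
    have h0 : ∀ s, 0 ≤ La s := fun s => ArithmeticFunction.vonMangoldt_nonneg
    have h00 : 0 ≤ La (h + u) * La (h + v) * La (h + w) := mul_nonneg (mul_nonneg (h0 _) (h0 _)) (h0 _)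
    by_cases hc : h ∈ S ∧ (h + u).Prime ∧ (h + v).Prime ∧ (h + w).Prime
    · rw [if_pos hc, if_pos hc.1]
      by_cases hnT : (h : ℝ) ≤ T
      · rw [if_pos hnT]; linarith
      · rw [if_neg hnT, mul_zero, add_zero, mul_one, one_mul]
        push Not at hnT
        have h4 : l ≤ Real.log h := hlT.trans (Real.log_le_log (by linarith) hnT.le)
        have h5 : ∀ s : ℕ, (h + s).Prime → l ≤ La (h + s) := by
          intro s hs
          unfold La
          rw [ArithmeticFunction.vonMangoldt_apply_prime hs]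
          refine h4.trans (Real.log_le_log (by linarith) ?_)
          exact_mod_cast Nat.le_add_right h s
        have g1 := h5 _ hc.2.1
        have g2 := h5 _ hc.2.2.1
        have g3 := h5 _ hc.2.2.2
        calc l ^ 3 = l * l * l := by ring
          _ ≤ La (h + u) * La (h + v) * La (h + w) :=
            mul_le_mul (mul_le_mul g1 g2 hl (h0 _)) g3 hl (mul_nonneg (h0 _) (h0 _))
    · rw [if_neg hc, mul_zero]
      have h1 : (0 : ℝ) ≤ if h ∈ S then (1 : ℝ) else 0 := by split_ifs <;> norm_num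
      have h2 : (0 : ℝ) ≤ if (h : ℝ) ≤ T then (1 : ℝ) else 0 := by split_ifs <;> norm_num
      positivity
  rw [mul_sum]
  refine (sum_le_sum hpt).trans ?_
  rw [sum_add_distrib, ← mul_sum]
  have : 0 ≤ l ^ 3 := by positivity
  nlinarith

open Classical in
lemma lower3 (S : Set ℕ) (u v w N X : ℕ) (hX1 : 1 ≤ X) (hu : N + u ≤ X) (hv : N + v ≤ X) (hw : N + w ≤ X) (l : ℝ)
    (hl : Real.log X ≤ l) :
    ∑ h ∈ Icc 1 N, (if h ∈ S then (1 : ℝ) else 0) * (La (h + u) * La (h + v) * La (h + w)) ≤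
      l ^ 3 * p3 S u v w N + 3 * l ^ 2 * (2 * √(X : ℝ) * Real.log X) := by
  have hlog : 0 ≤ Real.log X := Real.log_natCast_nonneg X
  have hl0 : 0 ≤ l := hlog.trans hl
  have hLa : ∀ s : ℕ, N + s ≤ X → ∀ h ∈ Icc 1 N, La (h + s) ≤ l := by
    intro s hs h hh
    rw [mem_Icc] at hh
    unfold La
    refine ArithmeticFunction.vonMangoldt_le_log.trans (le_trans ?_ hl)
    apply Real.log_le_log (by exact_mod_cast (show 0 < h + s by omega))
    exact_mod_cast (show h + s ≤ X by omega)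
  have hpp : ∀ s : ℕ, N + s ≤ X → ∑ n ∈ Icc 1 N, (lamI ((n : ℤ) + (s : ℤ)) - lamP ((n : ℤ) + (s : ℤ))) ≤
      2 * √(X : ℝ) * Real.log X := by
    intro s hs
    refine pp_sum N X s hX1 ?_
    intro n hn
    rw [mem_Icc] at hn
    omega
  set g : ℕ → ℕ → ℝ := fun s h => lamI ((h : ℤ) + (s : ℤ)) - lamP ((h : ℤ) + (s : ℤ)) with hg
  have hg0 : ∀ s h, 0 ≤ g s h := fun s h => by
    simp only [hg]
    linarith [lamP_le ((h : ℤ) + (s : ℤ))]
  have hgn : ∀ s, ∀ h ∈ Icc 1 N, ¬ (h + s).Prime → La (h + s) = g s h := by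
    intro s h hh hs
    have e := La_lamI h s (mem_Icc.1 hh).1
    have h2 : lamP ((h : ℤ) + (s : ℤ)) = 0 := by
      unfold lamP
      rw [if_neg]
      rw [show ((h : ℤ) + (s : ℤ)).toNat = h + s by omega]
      exact hs
    simp only [hg]
    rw [h2, sub_zero, e]
  unfold p3
  rw [card_filter]
  push_cast
  have hpt : ∀ h ∈ Icc 1 N, (if h ∈ S then (1 : ℝ) else 0) * (La (h + u) * La (h + v) * La (h + w)) ≤
      l ^ 3 * (if h ∈ S ∧ (h + u).Prime ∧ (h + v).Prime ∧ (h + w).Prime then (1 : ℝ) else 0) +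
      (l ^ 2 * g u h + l ^ 2 * g v h + l ^ 2 * g w h) := by
    intro h hh
    have h0 : ∀ s, 0 ≤ La s := fun s => ArithmeticFunction.vonMangoldt_nonneg
    have hu1 := hLa u hu h hh
    have hv1 := hLa v hv h hh
    have hw1 := hLa w hw h hh
    have qu : 0 ≤ l ^ 2 * g u h := mul_nonneg (by positivity) (hg0 _ _)
    have qv : 0 ≤ l ^ 2 * g v h := mul_nonneg (by positivity) (hg0 _ _)
    have qw : 0 ≤ l ^ 2 * g w h := mul_nonneg (by positivity) (hg0 _ _)
    by_cases hM : h ∈ S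
    · rw [if_pos hM, one_mul]
      by_cases c1 : (h + u).Prime
      · by_cases c2 : (h + v).Prime
        · by_cases c3 : (h + w).Prime
          · rw [if_pos ⟨hM, c1, c2, c3⟩]
            have : La (h + u) * La (h + v) * La (h + w) ≤ l * l * l := by
              have := h0 (h + u); have := h0 (h + v); have := h0 (h + w)
              gcongr
            nlinarith
          · rw [if_neg (fun h => c3 h.2.2.2), mul_zero, zero_add, hgn w h hh c3]
            have : La (h + u) * La (h + v) * g w h ≤ l * l * g w h := by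
              have := h0 (h + u); have := h0 (h + v); have := hg0 w h
              gcongr
            nlinarith
        · rw [if_neg (fun h => c2 h.2.2.1), mul_zero, zero_add, hgn v h hh c2]
          have : La (h + u) * g v h * La (h + w) ≤ l * g v h * l := by
            have := h0 (h + u); have := h0 (h + w); have := hg0 v h
            gcongr
          nlinarith
      · rw [if_neg (fun h => c1 h.2.1), mul_zero, zero_add, hgn u h hh c1]
        have : g u h * La (h + v) * La (h + w) ≤ g u h * l * l := by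
          have := h0 (h + v); have := h0 (h + w); have := hg0 u h
          gcongr
        nlinarith
    · rw [if_neg hM, zero_mul, if_neg (fun h => hM h.1), mul_zero, zero_add]
      linarith
  refine (sum_le_sum hpt).trans ?_
  rw [sum_add_distrib, sum_add_distrib, sum_add_distrib, ← mul_sum, ← mul_sum, ← mul_sum, ← mul_sum]
  have l2 : 0 ≤ l ^ 2 := by positivity
  have g1 := mul_le_mul_of_nonneg_left (hpp u hu) l2
  have g2 := mul_le_mul_of_nonneg_left (hpp v hv) l2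
  have g3 := mul_le_mul_of_nonneg_left (hpp w hw) l2
  simp only [hg]
  linarith

open Classical in
/-- from the sums to the numbers -/
theorem close3 (K : ℕ) (ε : ℝ) (hε : 0 < ε) : ∃ N₀ : ℕ, ∀ N : ℕ, N₀ ≤ N → ∀ (z : ℕ) (S : Set ℕ) (u v w : ℕ),
    u ≤ N → v ≤ N → w ≤ N →
    |∑ h ∈ Icc 1 N, (if h ∈ S then (1 : ℝ) else 0) * (La (h + u) * La (h + v) * La (h + w) -
      lamz z (h + u) * lamz z (h + v) * lamz z (h + w))| ≤ N / Real.log N ^ K →
    |(p3 S u v w N : ℝ) - r3 z S u v w N / (Vz z * Real.log N) ^ 3| ≤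
      ε * (r3 z S u v w N / (Vz z * Real.log N) ^ 3) + N / Real.log N ^ K := by
  obtain ⟨δ, hδ0, hδ1, hδa, hδb⟩ := choose_delta 2 ε hε
  have hlim : Filter.Tendsto (fun n : ℕ => (n : ℝ)) Filter.atTop Filter.atTop := tendsto_natCast_atTop_atTop
  have h1 : ∀ᶠ n : ℕ in Filter.atTop, Real.log n ^ (K + 3) ≤ (n : ℝ) ^ δ := by
    have h := (isLittleO_log_rpow_rpow_atTop ((K + 3 : ℕ) : ℝ) (show (0 : ℝ) < δ by positivity)).bound (show (0 : ℝ) < 1 by norm_num)
    filter_upwards [hlim.eventually h, hlim.eventually_ge_atTop 1] with n hn hn1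
    have h0 : 0 ≤ Real.log (n : ℝ) := Real.log_nonneg hn1
    rw [Real.norm_of_nonneg (by positivity), Real.norm_of_nonneg (by positivity), Real.rpow_natCast, one_mul] at hn
    exact hn
  obtain ⟨n1, hn1⟩ := Filter.eventually_atTop.1 h1
  set c : ℝ := (1 - δ) ^ 3 with hc
  have hc0 : 0 < c := by
    have : 0 < 1 - δ := by linarith
    positivity
  obtain ⟨n2, hn2⟩ := ev_L' (Real.log 2 / δ + 2 / c + 96)
  obtain ⟨n3, hn3⟩ := ev_log' (K + 4) 1
  refine ⟨n1 + n2 + n3 + 3, fun N hN z S u v w hu hv hw hsm => ?_⟩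
  have b1 := hn1 N (by omega)
  have b2 := hn2 N (by omega)
  have b3 := hn3 N (by omega)
  rw [one_mul] at b3
  have hNr : (3 : ℝ) ≤ N := by exact_mod_cast (show 3 ≤ N by omega)
  have hN0 : (0 : ℝ) < N := by linarith
  set L := Real.log (N : ℝ) with hLd
  have hl7 : 0 < Real.log 2 := Real.log_pos (by norm_num)
  have q1 : 0 < Real.log 2 / δ := by positivity
  have q2 : 0 < 2 / c := by positivity
  have hL64 : 96 ≤ L := by linarith
  have hL0 : 0 < L := by linarith
  have hL1 : 1 ≤ L := by linarith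
  have hL7 : Real.log 2 ≤ δ * L := by
    have h : Real.log 2 / δ ≤ L := by linarith
    rw [div_le_iff₀ hδ0] at h
    linarith
  have hLc : 2 ≤ c * L := by
    have h : 2 / c ≤ L := by linarith
    rw [div_le_iff₀ hc0] at h
    linarith
  set T := ∑ h ∈ Icc 1 N, (if h ∈ S then (1 : ℝ) else 0) * (La (h + u) * La (h + v) * La (h + w)) with hT
  set Q : ℝ := r3 z S u v w N / (Vz z * L) ^ 3 with hQ
  have hVp := Vz_pos z
  have hQ0 : 0 ≤ Q := by positivity
  have hQL : (r3 z S u v w N : ℝ) / (Vz z) ^ 3 = Q * L ^ 3 := by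
    rw [hQ, mul_pow]
    field_simp
  have hJT : ∑ h ∈ Icc 1 N, (if h ∈ S then (1 : ℝ) else 0) * (La (h + u) * La (h + v) * La (h + w) -
      lamz z (h + u) * lamz z (h + v) * lamz z (h + w)) = T - Q * L ^ 3 := by
    rw [← hQL, ← model3, hT, ← sum_sub_distrib]
    refine sum_congr rfl fun h _ => ?_
    rw [mul_sub]
  rw [hJT] at hsm
  set w₀ : ℝ := N / L ^ K with hw₀
  have hw00 : 0 < w₀ := by positivity
  obtain ⟨t1, t2⟩ := abs_le.1 hsm
  set P : ℝ := (p3 S u v w N : ℝ) with hP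
  have hP0 : (0 : ℝ) ≤ P := Nat.cast_nonneg _
  have up := upper3 S u v w N ((N : ℝ) ^ (1 - δ)) ((1 - δ) * L)
    (Real.one_le_rpow (by linarith) (by linarith)) (mul_nonneg (by linarith) hL0.le) (by rw [Real.log_rpow hN0])
  rw [← hT, ← hP, mul_pow, ← hc] at up
  have hsm2 : (N : ℝ) ^ (1 - δ) ≤ w₀ / L ^ 3 := by
    rw [hw₀, div_div, ← pow_add, le_div_iff₀ (by positivity)]
    have e : (N : ℝ) ^ (1 - δ) * (N : ℝ) ^ δ = N := by
      rw [← Real.rpow_add hN0]; norm_num
    calc (N : ℝ) ^ (1 - δ) * L ^ (K + 3) ≤ (N : ℝ) ^ (1 - δ) * (N : ℝ) ^ δ := by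
          apply mul_le_mul_of_nonneg_left b1 (by positivity)
      _ = N := e
  have hc1 : c ≤ 1 := by
    rw [hc]
    apply pow_le_one₀ (by linarith) (by linarith)
  have u1 : c * L ^ 3 * (N : ℝ) ^ (1 - δ) ≤ w₀ := by
    calc c * L ^ 3 * (N : ℝ) ^ (1 - δ) ≤ 1 * L ^ 3 * (w₀ / L ^ 3) := by gcongr
      _ = w₀ := by field_simp
  have hL2 : w₀ ≤ L ^ 2 * w₀ := le_mul_of_one_le_left hw00.le (one_le_pow₀ hL1)
  have upper : P ≤ Q + (ε * Q + w₀) := by
    have e1 : c * L ^ 3 * P ≤ c * L ^ 3 * (Q + (ε * Q + w₀)) := by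
      have e2 : c * L ^ 3 * (Q + (ε * Q + w₀)) = ((1 + ε) * c) * Q * L ^ 3 + c * L * (L ^ 2 * w₀) := by ring
      rw [e2]
      have e3 : 1 ≤ (1 + ε) * c := by
        have h9 : 1 + 2 * δ ≤ (1 + ε) * c := hδb
        linarith
      have e4 : Q * L ^ 3 ≤ ((1 + ε) * c) * Q * L ^ 3 := by
        have : 0 ≤ Q * L ^ 3 := by positivity
        nlinarith
      have e5 : 2 * w₀ ≤ c * L * (L ^ 2 * w₀) := mul_le_mul hLc hL2 hw00.le (by positivity)
      linarith
    exact le_of_mul_le_mul_left e1 (by positivity)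
  have lo := lower3 S u v w N (2 * N) (by omega) (by omega) (by omega) (by omega) ((1 + δ) * L) (by
    push_cast
    rw [Real.log_mul (by norm_num) hN0.ne', ← hLd]
    linarith)
  rw [← hT, ← hP] at lo
  have hlog7 : Real.log ((2 * N : ℕ) : ℝ) ≤ 2 * L := by
    push_cast
    rw [Real.log_mul (by norm_num) hN0.ne', ← hLd]
    nlinarith
  have hlog70 : 0 ≤ Real.log ((2 * N : ℕ) : ℝ) := Real.log_natCast_nonneg _
  have hsq7 : √((2 * N : ℕ) : ℝ) ≤ 2 * √(N : ℝ) := by
    push_cast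
    rw [Real.sqrt_mul (by norm_num)]
    apply mul_le_mul_of_nonneg_right _ (Real.sqrt_nonneg _)
    rw [Real.sqrt_le_left (by norm_num)]
    norm_num
  have l1 : 3 * ((1 + δ) * L) ^ 2 * (2 * √((2 * N : ℕ) : ℝ) * Real.log ((2 * N : ℕ) : ℝ)) ≤ w₀ := by
    calc 3 * ((1 + δ) * L) ^ 2 * (2 * √((2 * N : ℕ) : ℝ) * Real.log ((2 * N : ℕ) : ℝ))
        ≤ 3 * (2 * L) ^ 2 * (2 * (2 * √(N : ℝ)) * (2 * L)) := by gcongr; linarith
      _ = 96 * L ^ 3 * √(N : ℝ) := by ring
      _ ≤ L ^ 4 * √(N : ℝ) := by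
        apply mul_le_mul_of_nonneg_right _ (Real.sqrt_nonneg _)
        have : 0 < L ^ 3 := by positivity
        nlinarith
      _ ≤ w₀ := by
        rw [hw₀, le_div_iff₀ (by positivity)]
        calc L ^ 4 * √(N : ℝ) * L ^ K = L ^ (K + 4) * √(N : ℝ) := by ring
          _ ≤ √(N : ℝ) * √(N : ℝ) := mul_le_mul_of_nonneg_right b3 (Real.sqrt_nonneg _)
          _ = N := Real.mul_self_sqrt hN0.le
  have lower : Q - (ε * Q + w₀) ≤ P := by
    have e1 : ((1 + δ) * L) ^ 3 * (Q - (ε * Q + w₀)) ≤ ((1 + δ) * L) ^ 3 * P := by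
      have e2 : ((1 + δ) * L) ^ 3 * (Q - (ε * Q + w₀)) = ((1 - ε) * (1 + δ) ^ 3) * (Q * L ^ 3) - (1 + δ) ^ 3 * L * (L ^ 2 * w₀) := by ring
      rw [e2]
      have e3 : (1 - ε) * (1 + δ) ^ 3 ≤ 1 := by
        have h9 : (1 - ε) * (1 + δ) ^ 3 ≤ 1 - δ := hδa
        linarith
      have e4 : ((1 - ε) * (1 + δ) ^ 3) * (Q * L ^ 3) ≤ Q * L ^ 3 := by
        have : 0 ≤ Q * L ^ 3 := by positivity
        nlinarith
      have e5 : 2 * w₀ ≤ (1 + δ) ^ 3 * L * (L ^ 2 * w₀) := by
        have e7 : 2 ≤ (1 + δ) ^ 3 * L := by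
          have : 1 ≤ (1 + δ) ^ 3 := one_le_pow₀ (by linarith)
          nlinarith
        exact mul_le_mul e7 hL2 hw00.le (by positivity)
      linarith
    exact le_of_mul_le_mul_left e1 (by positivity)
  rw [abs_le]
  constructor <;> linarith

end Pool.Agent.Helper12.PV
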