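import Pool.Graph.R_pool_sql_team_seeded_b677cdb8.E8helper16.TP.Asm1
import Pool.Graph.R_pool_sql_team_seeded_b677cdb8.E8helper16.TP.StmB

/-! The variance over the progressions `x, x + y, x + 2 y` (project TP of helper16 is the input). -/

set_option autoImplicit false
set_option maxHeartbeats 4000000

open Finset

namespace Pool.Agent.Helper12.PV

open Pool.Agent.H807R2.Dav (ee)
open Pool.Agent.H373R2.T7 (lamz pz Vz ev_L' ev_log' lamz_nonneg)
open Pool.Agent.E8helper66.GB (DD lamz_le_log)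
open Pool.Agent.E8helper16.TP

/-- all phases, for almost all shifts, one factor arbitrary -/
theorem fouw (hT : S_TRI) (U : ℕ) : ∃ B : ℕ, ∀ K : ℕ, ∃ N₀ : ℕ, ∀ N : ℕ, N₀ ≤ N → ∀ z : ℕ, Real.log N ^ B ≤ z →
    (z : ℝ) ≤ Real.log N ^ K → ∀ F : ℕ → ℂ, (∀ x ∈ Icc 1 (2 * N), ‖F x‖ ≤ Real.log N ^ 2) →
    ∃ E : Finset ℕ, E ⊆ Icc 1 N ∧ (E.card : ℝ) ≤ N / Real.log N ^ U ∧ ∀ h ∈ Icc 1 N, h ∉ E → ∀ θ : ℝ,
      ‖∑ x ∈ Icc 1 N, F x * DD z (x + h) * ee (θ * x)‖ ≤ N / Real.log N ^ U := by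
  classical
  obtain ⟨B, hB⟩ := hT (2 * U)
  refine ⟨B, fun K => ?_⟩
  obtain ⟨m1, h1⟩ := hB K
  obtain ⟨m2, h2⟩ := ev_L' 1
  refine ⟨m1 + m2 + 1, fun N hN z hz1 hz2 F hF => ?_⟩
  have hL1 := h2 N (by omega)
  have hL0 : 0 < Real.log N := by linarith
  have hN0 : (0 : ℝ) < N := by exact_mod_cast (by omega : 0 < N)
  set T : ℕ → ℝ → ℝ := fun h θ => ‖∑ x ∈ Icc 1 N, F x * DD z (x + h) * ee (θ * x)‖ with hTd
  set E := (Icc 1 N).filter (fun h => ∃ θ : ℝ, N / Real.log N ^ U < T h θ) with hE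
  refine ⟨E, filter_subset _ _, ?_, ?_⟩
  swap
  · intro h hh hhE θ
    by_contra hc
    push Not at hc
    exact hhE (mem_filter.2 ⟨hh, θ, hc⟩)
  have hex : ∀ h : ℕ, ∃ θ : ℝ, h ∈ E → N / Real.log N ^ U < T h θ := by
    intro h
    by_cases hh : h ∈ E
    · obtain ⟨θ, hθ⟩ := (mem_filter.1 hh).2
      exact ⟨θ, fun _ => hθ⟩
    · exact ⟨0, fun h' => absurd h' hh⟩
  choose θ hθ using hex
  have hsum := (h1 N (by omega) z hz1 hz2 F θ hF).1
  have hlow : (E.card : ℝ) * (N / Real.log N ^ U) ≤ ∑ h ∈ Icc 1 N, T h (θ h) := by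
    calc (E.card : ℝ) * (N / Real.log N ^ U) = ∑ _h ∈ E, (N : ℝ) / Real.log N ^ U := by
          rw [sum_const, nsmul_eq_mul]
      _ ≤ ∑ h ∈ E, T h (θ h) := sum_le_sum fun h hh => (hθ h hh).le
      _ ≤ ∑ h ∈ Icc 1 N, T h (θ h) := sum_le_sum_of_subset_of_nonneg (filter_subset _ _) fun h _ _ => norm_nonneg _
  have h5 := hlow.trans hsum
  have h6 : (E.card : ℝ) * (N / Real.log N ^ U) ≤ (N / Real.log N ^ U) * (N / Real.log N ^ U) := by
    refine h5.trans (le_of_eq ?_)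
    rw [two_mul U, pow_add]
    field_simp
  exact le_of_mul_le_mul_right h6 (by positivity)

/-- the sum over the progressions -/
noncomputable def T3 (N : ℕ) (F : ℕ → ℝ) : ℝ := ∑ r ∈ tri 2 N, F r.1 * F (r.1 + r.2) * F (r.1 + 2 * r.2)

/-- `Λ`, shifted -/
noncomputable def la (h x : ℕ) : ℝ := ArithmeticFunction.vonMangoldt (x + h)

/-- the model, shifted -/
noncomputable def lz (z h x : ℕ) : ℝ := lamz z (x + h)

lemma T3_triv (N : ℕ) (F : ℕ → ℝ) (hF : ∀ x ∈ Icc 1 N, |F x| ≤ 2 * Real.log N ^ 2) :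
    |T3 N F| ≤ N ^ 2 * (8 * Real.log N ^ 6) := by
  unfold T3
  refine (abs_sum_le_sum_abs _ _).trans ?_
  have h1 : ∀ r ∈ tri 2 N, |F r.1 * F (r.1 + r.2) * F (r.1 + 2 * r.2)| ≤ 8 * Real.log N ^ 6 := by
    intro r hr
    unfold tri at hr
    rw [mem_filter, mem_product, mem_Icc, mem_Icc] at hr
    rw [abs_mul, abs_mul]
    have a1 := hF r.1 (mem_Icc.2 (by omega))
    have a2 := hF (r.1 + r.2) (mem_Icc.2 (by omega))
    have a3 := hF (r.1 + 2 * r.2) (mem_Icc.2 (by omega))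
    calc |F r.1| * |F (r.1 + r.2)| * |F (r.1 + 2 * r.2)| ≤ (2 * Real.log N ^ 2) * (2 * Real.log N ^ 2) * (2 * Real.log N ^ 2) := by
          gcongr
      _ = _ := by ring
  refine (sum_le_sum h1).trans ?_
  rw [sum_const, nsmul_eq_mul]
  apply mul_le_mul_of_nonneg_right _ (by positivity)
  have : (tri 2 N).card ≤ N * N := by
    unfold tri
    refine (card_filter_le _ _).trans (le_of_eq ?_)
    rw [card_product, Nat.card_Icc, Nat.add_sub_cancel]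
  rw [sq]
  exact_mod_cast this

/-- **The variance.** -/
theorem variance (hTT : S_TTA) (hTel : S_TEL) (hT : S_TRI) (U : ℕ) : ∃ B : ℕ, ∀ K : ℕ, ∃ N₀ : ℕ, ∀ N : ℕ, N₀ ≤ N →
    ∀ z : ℕ, Real.log N ^ B ≤ z → (z : ℝ) ≤ Real.log N ^ K → ∀ e : ℕ → ℝ, (∀ h, |e h| ≤ 1) →
    ∑ r ∈ tri 2 N, (∑ h ∈ Icc 1 N, e h * (la h r.1 * la h (r.1 + r.2) * la h (r.1 + 2 * r.2) -
      lz z h r.1 * lz z h (r.1 + r.2) * lz z h (r.1 + 2 * r.2))) ^ 2 ≤ (N : ℝ) ^ 4 / Real.log N ^ U := by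
  classical
  obtain ⟨B, hB⟩ := fouw hT (U + 7)
  refine ⟨B, fun K => ?_⟩
  obtain ⟨m1, h1⟩ := hB K
  obtain ⟨m2, h2⟩ := ev_L' 288
  obtain ⟨m3, h3⟩ := lamz_le_log K
  obtain ⟨m4, h4⟩ := ev_log' (U + 6) 48
  refine ⟨m1 + m2 + m3 + m4 + 3, fun N hN z hz1 hz2 e he => ?_⟩
  have hL := h2 N (by omega)
  have h1 := h1 N (by omega) z hz1 hz2
  have h4 := h4 N (by omega)
  have hN0 : (0 : ℝ) < N := by exact_mod_cast (by omega : 0 < N)
  have hN3 : (3 : ℝ) ≤ N := by exact_mod_cast (by omega : 3 ≤ N)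
  set L := Real.log (N : ℝ) with hLd
  have hL0 : 0 < L := by linarith
  have hL1 : 1 ≤ L := by linarith
  have hzz : 1 ≤ z := by
    have : (1 : ℝ) ≤ z := (one_le_pow₀ hL1).trans hz1
    exact_mod_cast this
  have h3 := h3 N (by omega) z hzz hz2
  -- bounds
  have hlog2 : Real.log 2 ≤ 1 := by
    have := Real.log_two_lt_d9
    linarith
  have hlog3 : Real.log 3 ≤ L := Real.log_le_log (by norm_num) hN3
  have la0 : ∀ h x, 0 ≤ la h x := fun h x => ArithmeticFunction.vonMangoldt_nonneg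
  have la_le : ∀ h ∈ Icc 1 N, ∀ x ∈ Icc 1 (2 * N), |la h x| ≤ L ^ 2 := by
    intro h hh x hx
    rw [mem_Icc] at hh hx
    rw [abs_of_nonneg (la0 h x)]
    unfold la
    refine ArithmeticFunction.vonMangoldt_le_log.trans ?_
    have e1 : Real.log ((x + h : ℕ) : ℝ) ≤ Real.log (3 * N) := by
      apply Real.log_le_log
      · exact_mod_cast (by omega : 0 < x + h)
      · exact_mod_cast (by omega : x + h ≤ 3 * N)
    rw [Real.log_mul (by norm_num) hN0.ne'] at e1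
    nlinarith
  have la_le' : ∀ h ∈ Icc 1 N, ∀ x ∈ Icc 1 N, |la h x| ≤ L + 1 := by
    intro h hh x hx
    rw [mem_Icc] at hh hx
    rw [abs_of_nonneg (la0 h x)]
    unfold la
    refine ArithmeticFunction.vonMangoldt_le_log.trans ?_
    have e1 : Real.log ((x + h : ℕ) : ℝ) ≤ Real.log (2 * N) := by
      apply Real.log_le_log
      · exact_mod_cast (by omega : 0 < x + h)
      · exact_mod_cast (by omega : x + h ≤ 2 * N)
    rw [Real.log_mul (by norm_num) hN0.ne'] at e1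
    linarith
  have lz_le : ∀ h x, |lz z h x| ≤ L := fun h x => h3 _
  have lz_le1 : ∀ h x, |lz z h x| ≤ L + 1 := fun h x => (lz_le h x).trans (by linarith)
  have prodb : ∀ a b : ℝ, |a| ≤ L + 1 → |b| ≤ L + 1 → |a * b| ≤ 2 * L ^ 2 := by
    intro a b ha hb
    rw [abs_mul]
    calc |a| * |b| ≤ (L + 1) * (L + 1) := mul_le_mul ha hb (abs_nonneg _) (by linarith)
      _ ≤ 2 * L ^ 2 := by nlinarith
  -- the exceptional sets
  have hA : ∀ h' : ℕ, ∃ E : Finset ℕ, E ⊆ Icc 1 N ∧ (h' ∈ Icc 1 N → (E.card : ℝ) ≤ N / L ^ (U + 7) ∧ ∀ h ∈ Icc 1 N, h ∉ E → ∀ θ : ℝ,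
      ‖∑ x ∈ Icc 1 N, ((la h' x : ℝ) : ℂ) * DD z (x + h) * ee (θ * x)‖ ≤ N / L ^ (U + 7)) := by
    intro h'
    by_cases hh : h' ∈ Icc 1 N
    · obtain ⟨E, hE1, hE2, hE3⟩ := h1 (fun x => ((la h' x : ℝ) : ℂ)) (fun x hx => by
        rw [Complex.norm_real, Real.norm_eq_abs]
        exact la_le h' hh x hx)
      exact ⟨E, hE1, fun _ => ⟨hE2, hE3⟩⟩
    · exact ⟨∅, empty_subset _, fun h => absurd h hh⟩
  have hZ : ∀ h' : ℕ, ∃ E : Finset ℕ, E ⊆ Icc 1 N ∧ (E.card : ℝ) ≤ N / L ^ (U + 7) ∧ ∀ h ∈ Icc 1 N, h ∉ E → ∀ θ : ℝ,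
      ‖∑ x ∈ Icc 1 N, ((lz z h' x : ℝ) : ℂ) * DD z (x + h) * ee (θ * x)‖ ≤ N / L ^ (U + 7) := by
    intro h'
    exact h1 (fun x => ((lz z h' x : ℝ) : ℂ)) (fun x hx => by
        rw [Complex.norm_real, Real.norm_eq_abs]
        exact (lz_le h' x).trans (by nlinarith))
  choose EA hEA1 hEA using hA
  choose EZ hEZ1 hEZ2 hEZ3 using hZ
  set w : ℝ := (N : ℝ) / L ^ (U + 7) with hw
  have hw0 : 0 < w := by positivity
  -- the three comparisons
  set G : ℕ → ℕ → ℕ → ℝ := fun h h' x => lz z h x * lz z h' x with hG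
  have hGb : ∀ h h', ∀ x ∈ Icc 1 N, |G h h' x| ≤ 2 * L ^ 2 := fun h h' x _ => prodb _ _ (lz_le1 h x) (lz_le1 h' x)
  have cmp : ∀ (F G' : ℕ → ℝ) (A : ℝ), (∀ x ∈ Icc 1 N, |F x| ≤ 2 * L ^ 2) → (∀ x ∈ Icc 1 N, |G' x| ≤ 2 * L ^ 2) →
      (∀ θ : ℝ, ‖∑ x ∈ Icc 1 N, ((F x - G' x : ℝ) : ℂ) * ee ((x : ℝ) * θ)‖ ≤ A) →
      |T3 N F - T3 N G'| ≤ 3 * A * (N * (4 * L ^ 4)) + N * (8 * L ^ 6) := fun F G' A hF hG' hA =>
    tel_A hTT hTel N F G' A hA hF hG'
  have hDD : ∀ y : ℕ, DD z y = ((ArithmeticFunction.vonMangoldt y - lamz z y : ℝ) : ℂ) := fun y => rfl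
  set W : ℕ → ℕ → ℝ := fun h h' => (T3 N (fun x => la h x * la h' x) - T3 N (G h h')) -
    (T3 N (fun x => la h x * lz z h' x) - T3 N (G h h')) - (T3 N (fun x => lz z h x * la h' x) - T3 N (G h h')) with hW
  have hgood : ∀ h ∈ Icc 1 N, ∀ h' ∈ Icc 1 N, h ∉ EA h' → h ∉ EZ h' → h' ∉ EZ h →
      |W h h'| ≤ 48 * w * N * L ^ 4 + 24 * N * L ^ 6 := by
    intro h hh h' hh' g1 g2 g3
    have a1 := (hEA h' hh').2 h hh g1
    have a3 := hEZ3 h' h hh g2
    have a2 := hEZ3 h h' hh' g3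
    have c1 := cmp (fun x => la h x * la h' x) (G h h') (2 * w)
      (fun x hx => prodb _ _ (la_le' h hh x hx) (la_le' h' hh' x hx)) (hGb h h') (by
      intro θ
      have e1 : ∑ x ∈ Icc 1 N, ((la h x * la h' x - G h h' x : ℝ) : ℂ) * ee ((x : ℝ) * θ) =
          ∑ x ∈ Icc 1 N, ((la h' x : ℝ) : ℂ) * DD z (x + h) * ee (θ * x) +
          ∑ x ∈ Icc 1 N, ((lz z h x : ℝ) : ℂ) * DD z (x + h') * ee (θ * x) := by
        rw [← sum_add_distrib]
        refine sum_congr rfl fun x _ => ?_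
        rw [hDD, hDD, mul_comm (x : ℝ) θ]
        simp only [hG, la, lz]
        push_cast
        ring
      rw [e1]
      refine (norm_add_le _ _).trans ?_
      linarith [a1 θ, a2 θ])
    have c2 := cmp (fun x => la h x * lz z h' x) (G h h') w
      (fun x hx => prodb _ _ (la_le' h hh x hx) (lz_le1 h' x)) (hGb h h') (by
      intro θ
      have e1 : ∑ x ∈ Icc 1 N, ((la h x * lz z h' x - G h h' x : ℝ) : ℂ) * ee ((x : ℝ) * θ) =
          ∑ x ∈ Icc 1 N, ((lz z h' x : ℝ) : ℂ) * DD z (x + h) * ee (θ * x) := by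
        refine sum_congr rfl fun x _ => ?_
        rw [hDD, mul_comm (x : ℝ) θ]
        simp only [hG, la, lz]
        push_cast
        ring
      rw [e1]
      exact a3 θ)
    have c3 := cmp (fun x => lz z h x * la h' x) (G h h') w
      (fun x hx => prodb _ _ (lz_le1 h x) (la_le' h' hh' x hx)) (hGb h h') (by
      intro θ
      have e1 : ∑ x ∈ Icc 1 N, ((lz z h x * la h' x - G h h' x : ℝ) : ℂ) * ee ((x : ℝ) * θ) =
          ∑ x ∈ Icc 1 N, ((lz z h x : ℝ) : ℂ) * DD z (x + h') * ee (θ * x) := by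
        refine sum_congr rfl fun x _ => ?_
        rw [hDD, mul_comm (x : ℝ) θ]
        simp only [hG, la, lz]
        push_cast
        ring
      rw [e1]
      exact a2 θ)
    have d1 := abs_le.1 c1
    have d2 := abs_le.1 c2
    have d3 := abs_le.1 c3
    simp only [hW]
    rw [abs_le]
    constructor <;> nlinarith [d1.1, d1.2, d2.1, d2.2, d3.1, d3.2]
  have hbad : ∀ h ∈ Icc 1 N, ∀ h' ∈ Icc 1 N, |W h h'| ≤ 32 * N ^ 2 * L ^ 6 := by
    intro h hh h' hh'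
    have c1 := abs_le.1 (T3_triv N (fun x => la h x * la h' x) (fun x hx => prodb _ _ (la_le' h hh x hx) (la_le' h' hh' x hx)))
    have c2 := abs_le.1 (T3_triv N (fun x => la h x * lz z h' x) (fun x hx => prodb _ _ (la_le' h hh x hx) (lz_le1 h' x)))
    have c3 := abs_le.1 (T3_triv N (fun x => lz z h x * la h' x) (fun x hx => prodb _ _ (lz_le1 h x) (la_le' h' hh' x hx)))
    have c4 := abs_le.1 (T3_triv N (G h h') (hGb h h'))
    simp only [hW]
    rw [← hLd] at c1 c2 c3 c4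
    rw [abs_le]
    constructor <;> linarith [c1.1, c1.2, c2.1, c2.2, c3.1, c3.2, c4.1, c4.2]
  -- the identity
  have hid : ∑ r ∈ tri 2 N, (∑ h ∈ Icc 1 N, e h * (la h r.1 * la h (r.1 + r.2) * la h (r.1 + 2 * r.2) -
      lz z h r.1 * lz z h (r.1 + r.2) * lz z h (r.1 + 2 * r.2))) ^ 2 = ∑ h ∈ Icc 1 N, ∑ h' ∈ Icc 1 N, e h * e h' * W h h' := by
    have e1 : ∀ r ∈ tri 2 N, (∑ h ∈ Icc 1 N, e h * (la h r.1 * la h (r.1 + r.2) * la h (r.1 + 2 * r.2) -
        lz z h r.1 * lz z h (r.1 + r.2) * lz z h (r.1 + 2 * r.2))) ^ 2 =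
        ∑ h ∈ Icc 1 N, ∑ h' ∈ Icc 1 N, e h * e h' * ((la h r.1 * la h (r.1 + r.2) * la h (r.1 + 2 * r.2) -
        lz z h r.1 * lz z h (r.1 + r.2) * lz z h (r.1 + 2 * r.2)) * (la h' r.1 * la h' (r.1 + r.2) * la h' (r.1 + 2 * r.2) -
        lz z h' r.1 * lz z h' (r.1 + r.2) * lz z h' (r.1 + 2 * r.2))) := by
      intro r _
      rw [sq, sum_mul_sum]
      refine sum_congr rfl fun h _ => sum_congr rfl fun h' _ => ?_
      ring
    rw [sum_congr rfl e1, sum_comm]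
    refine sum_congr rfl fun h _ => ?_
    rw [sum_comm]
    refine sum_congr rfl fun h' _ => ?_
    rw [← mul_sum]
    congr 1
    simp only [hW, T3, hG]
    rw [← sum_sub_distrib, ← sum_sub_distrib, ← sum_sub_distrib, ← sum_sub_distrib, ← sum_sub_distrib]
    refine sum_congr rfl fun r _ => ?_
    ring
  rw [hid]
  -- the estimate
  have hind : ∀ h ∈ Icc 1 N, ∀ h' ∈ Icc 1 N, e h * e h' * W h h' ≤ (48 * w * N * L ^ 4 + 24 * N * L ^ 6) +
      32 * N ^ 2 * L ^ 6 * ((if h ∈ EA h' then 1 else 0) + (if h ∈ EZ h' then 1 else 0) + (if h' ∈ EZ h then 1 else 0)) := by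
    intro h hh h' hh'
    have hp : 0 ≤ 48 * w * N * L ^ 4 + 24 * N * L ^ 6 := by positivity
    have hq : 0 ≤ 32 * (N : ℝ) ^ 2 * L ^ 6 := by positivity
    have hee : e h * e h' * W h h' ≤ |W h h'| := by
      refine (le_abs_self _).trans ?_
      rw [abs_mul, abs_mul]
      calc |e h| * |e h'| * |W h h'| ≤ 1 * 1 * |W h h'| := by
            apply mul_le_mul_of_nonneg_right _ (abs_nonneg _)
            exact mul_le_mul (he h) (he h') (abs_nonneg _) zero_le_one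
        _ = _ := by ring
    refine hee.trans ?_
    by_cases g1 : h ∈ EA h'
    · rw [if_pos g1]
      have := hbad h hh h' hh'
      have x1 : (0 : ℝ) ≤ if h ∈ EZ h' then 1 else 0 := by split_ifs <;> norm_num
      have x2 : (0 : ℝ) ≤ if h' ∈ EZ h then 1 else 0 := by split_ifs <;> norm_num
      nlinarith
    · by_cases g2 : h ∈ EZ h'
      · rw [if_pos g2]
        have := hbad h hh h' hh'
        have x1 : (0 : ℝ) ≤ if h ∈ EA h' then 1 else 0 := by split_ifs <;> norm_num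
        have x2 : (0 : ℝ) ≤ if h' ∈ EZ h then 1 else 0 := by split_ifs <;> norm_num
        nlinarith
      · by_cases g3 : h' ∈ EZ h
        · rw [if_pos g3]
          have := hbad h hh h' hh'
          have x1 : (0 : ℝ) ≤ if h ∈ EA h' then 1 else 0 := by split_ifs <;> norm_num
          have x2 : (0 : ℝ) ≤ if h ∈ EZ h' then 1 else 0 := by split_ifs <;> norm_num
          nlinarith
        · have := hgood h hh h' hh' g1 g2 g3
          rw [if_neg g1, if_neg g2, if_neg g3]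
          linarith
  have hcnt : ∀ (E : ℕ → Finset ℕ), (∀ h' ∈ Icc 1 N, ((E h').card : ℝ) ≤ w) →
      ∑ h' ∈ Icc 1 N, ∑ h ∈ Icc 1 N, (if h ∈ E h' then (1 : ℝ) else 0) ≤ N * w := by
    intro E hE
    calc ∑ h' ∈ Icc 1 N, ∑ h ∈ Icc 1 N, (if h ∈ E h' then (1 : ℝ) else 0) ≤ ∑ h' ∈ Icc 1 N, w := by
          refine sum_le_sum fun h' hh' => ?_
          rw [← sum_filter, sum_const, nsmul_eq_mul, mul_one]
          refine le_trans ?_ (hE h' hh')
          exact_mod_cast card_le_card fun x hx => (mem_filter.1 hx).2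
      _ = N * w := by rw [sum_const, nsmul_eq_mul, Nat.card_Icc, Nat.add_sub_cancel]
  have k1 : ∑ h ∈ Icc 1 N, ∑ h' ∈ Icc 1 N, (if h ∈ EA h' then (1 : ℝ) else 0) ≤ N * w := by
    rw [sum_comm]
    exact hcnt EA fun h' hh' => (hEA h' hh').1
  have k2 : ∑ h ∈ Icc 1 N, ∑ h' ∈ Icc 1 N, (if h ∈ EZ h' then (1 : ℝ) else 0) ≤ N * w := by
    rw [sum_comm]
    exact hcnt EZ fun h' _ => hEZ2 h'
  have k3 : ∑ h ∈ Icc 1 N, ∑ h' ∈ Icc 1 N, (if h' ∈ EZ h then (1 : ℝ) else 0) ≤ N * w := hcnt EZ fun h' _ => hEZ2 h'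
  have htot : ∑ h ∈ Icc 1 N, ∑ h' ∈ Icc 1 N, e h * e h' * W h h' ≤
      N * (N * (48 * w * N * L ^ 4 + 24 * N * L ^ 6)) + 32 * N ^ 2 * L ^ 6 * (3 * (N * w)) := by
    refine (sum_le_sum fun h hh => sum_le_sum fun h' hh' => hind h hh h' hh').trans ?_
    simp only [sum_add_distrib, ← mul_sum, sum_const, nsmul_eq_mul, Nat.card_Icc, Nat.add_sub_cancel]
    have hq : 0 ≤ 32 * (N : ℝ) ^ 2 * L ^ 6 := by positivity
    nlinarith [mul_le_mul_of_nonneg_left k1 hq, mul_le_mul_of_nonneg_left k2 hq, mul_le_mul_of_nonneg_left k3 hq]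
  refine htot.trans ?_
  have hwL : w * L ^ 7 = N / L ^ U := by
    rw [hw, pow_add]
    field_simp
  have hsq : √(N : ℝ) ≤ N := by
    rw [Real.sqrt_le_left hN0.le]
    nlinarith
  have x1 : N * (N * (48 * w * N * L ^ 4)) ≤ (1 / 6) * (N ^ 4 / L ^ U) := by
    have e1 : (N : ℝ) ^ 4 / L ^ U = N ^ 3 * (w * L ^ 7) := by rw [hwL]; field_simp
    rw [e1]
    have e2 : 288 * L ^ 4 ≤ L ^ 7 := by
      calc 288 * L ^ 4 ≤ L * L ^ 4 := mul_le_mul_of_nonneg_right hL (by positivity)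
        _ = L ^ 5 := by ring
        _ ≤ L ^ 7 := pow_le_pow_right₀ hL1 (by norm_num)
    have e3 : 0 ≤ (N : ℝ) ^ 3 * w := by positivity
    nlinarith [mul_le_mul_of_nonneg_left e2 e3]
  have x2 : 32 * (N : ℝ) ^ 2 * L ^ 6 * (3 * (N * w)) ≤ (1 / 3) * (N ^ 4 / L ^ U) := by
    have e1 : (N : ℝ) ^ 4 / L ^ U = N ^ 3 * (w * L ^ 7) := by rw [hwL]; field_simp
    rw [e1]
    have e2 : 288 * L ^ 6 ≤ L ^ 7 := by
      calc 288 * L ^ 6 ≤ L * L ^ 6 := mul_le_mul_of_nonneg_right hL (by positivity)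
        _ = L ^ 7 := by ring
    have e3 : 0 ≤ (N : ℝ) ^ 3 * w := by positivity
    nlinarith [mul_le_mul_of_nonneg_left e2 e3]
  have x3 : N * (N * (24 * N * L ^ 6)) ≤ (1 / 2) * ((N : ℝ) ^ 4 / L ^ U) := by
    have e2 : 24 * L ^ 6 * L ^ U ≤ (1 / 2) * N := by
      have e3 : 48 * (L ^ (U + 6)) ≤ N := h4.trans hsq
      rw [pow_add] at e3
      linarith
    rw [← mul_div_assoc, le_div_iff₀ (by positivity)]
    have e4 : (0 : ℝ) ≤ N ^ 3 := by positivity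
    nlinarith [mul_le_mul_of_nonneg_left e2 e4]
  nlinarith

end Pool.Agent.Helper12.PV
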